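import Mathlib

/-! Cochain complexes of complex vector spaces indexed by the integers, mapping cones and
Euler characteristics. -/

namespace Pool.Agent.Lib.KOS29

open Module

/-- A cochain complex. -/
structure Cx where
  X : ℤ → Type
  [ag : ∀ q, AddCommGroup (X q)]
  [md : ∀ q, Module ℂ (X q)]
  d : ∀ q, X q →ₗ[ℂ] X (q + 1)
  dd : ∀ q x, d (q + 1) (d q x) = 0

attribute [instance] Cx.ag Cx.md

/-- Cycles in degree `q + 1`. -/
def Zc (C : Cx) (q : ℤ) : Submodule ℂ (C.X (q + 1)) := LinearMap.ker (C.d (q + 1))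

/-- Boundaries in degree `q + 1`. -/
def Bc (C : Cx) (q : ℤ) : Submodule ℂ (Zc C q) :=
  (LinearMap.range (C.d q)).comap (Zc C q).subtype

/-- Cohomology in degree `q + 1`. -/
abbrev H (C : Cx) (q : ℤ) : Type := Zc C q ⧸ Bc C q

/-- The class of a cycle. -/
def cl (C : Cx) (q : ℤ) (x : C.X (q + 1)) (hx : C.d (q + 1) x = 0) : H C q :=
  Submodule.Quotient.mk ⟨x, hx⟩

theorem cl_surj (C : Cx) (q : ℤ) (z : H C q) : ∃ x hx, z = cl C q x hx := by
  obtain ⟨⟨x, hx⟩, rfl⟩ := Submodule.Quotient.mk_surjective _ z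
  exact ⟨x, hx, rfl⟩

theorem cl_eq_zero (C : Cx) (q : ℤ) (x : C.X (q + 1)) (hx : C.d (q + 1) x = 0) :
    cl C q x hx = 0 ↔ ∃ w, C.d q w = x := by
  unfold cl
  rw [Submodule.Quotient.mk_eq_zero]
  rfl

theorem cl_eq_cl (C : Cx) (q : ℤ) (x y : C.X (q + 1)) (hx : C.d (q + 1) x = 0)
    (hy : C.d (q + 1) y = 0) : cl C q x hx = cl C q y hy ↔ ∃ w, C.d q w = x - y := by
  unfold cl
  rw [Submodule.Quotient.eq]
  rfl

/-- The map induced on cohomology. -/
def ind (C C' : Cx) (p p' : ℤ) (φ : C.X (p + 1) →ₗ[ℂ] C'.X (p' + 1))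
    (hZ : ∀ x, C.d (p + 1) x = 0 → C'.d (p' + 1) (φ x) = 0)
    (hB : ∀ w, ∃ w', C'.d p' w' = φ (C.d p w)) : H C p →ₗ[ℂ] H C' p' :=
  Submodule.mapQ _ _ (φ.restrict (p := Zc C p) (q := Zc C' p') (fun x hx => hZ x hx)) (by
    rintro ⟨x, hx⟩ ⟨w, hw⟩
    obtain ⟨w', hw'⟩ := hB w
    refine ⟨w', ?_⟩
    have hw2 : C.d p w = x := hw
    rw [hw', hw2]
    rfl)

theorem ind_cl (C C' : Cx) (p p' : ℤ) (φ : C.X (p + 1) →ₗ[ℂ] C'.X (p' + 1))
    (hZ : ∀ x, C.d (p + 1) x = 0 → C'.d (p' + 1) (φ x) = 0)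
    (hB : ∀ w, ∃ w', C'.d p' w' = φ (C.d p w)) (x : C.X (p + 1)) (hx : C.d (p + 1) x = 0) :
    ind C C' p p' φ hZ hB (cl C p x hx) = cl C' p' (φ x) (hZ x hx) := rfl

/-- A chain map. -/
structure Hm (A B : Cx) where
  s : ∀ q, A.X q →ₗ[ℂ] B.X q
  ds : ∀ q x, B.d q (s q x) = s (q + 1) (A.d q x)

/-- The mapping cone. -/
def cone {A B : Cx} (f : Hm A B) : Cx where
  X q := A.X (q + 1) × B.X q
  d q := LinearMap.prod (-(A.d (q + 1)) ∘ₗ LinearMap.fst ℂ _ _)
    (LinearMap.coprod (f.s (q + 1)) (B.d q))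
  dd q x := by
    obtain ⟨x, y⟩ := x
    refine Prod.ext ?_ ?_
    · simp [A.dd]
    · simp [B.dd, f.ds]

theorem cone_d {A B : Cx} (f : Hm A B) (q : ℤ) (x : A.X (q + 1)) (y : B.X q) :
    (cone f).d q ((x, y) : A.X (q + 1) × B.X q)
      = ((-(A.d (q + 1) x), f.s (q + 1) x + B.d q y) : A.X (q + 1 + 1) × B.X (q + 1)) := rfl

/-- The three maps of the long exact sequence. -/
def mS {A B : Cx} (f : Hm A B) (q : ℤ) : H A q →ₗ[ℂ] H B q :=
  ind A B q q (f.s (q + 1)) (fun x hx => by rw [f.ds, hx, map_zero])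
    (fun w => ⟨f.s q w, f.ds q w⟩)

def mI {A B : Cx} (f : Hm A B) (q : ℤ) : H B q →ₗ[ℂ] H (cone f) q :=
  ind B (cone f) q q (LinearMap.inr ℂ (A.X (q + 1 + 1)) (B.X (q + 1)))
    (fun y hy => by
      refine (cone_d f (q + 1) 0 y).trans ?_
      refine Prod.ext ?_ ?_
      · show -(A.d (q + 1 + 1) 0) = 0
        simp
      · show f.s (q + 1 + 1) 0 + B.d (q + 1) y = 0
        simp [hy])
    (fun w => ⟨((0, w) : A.X (q + 1) × B.X q), by
      refine (cone_d f q 0 w).trans ?_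
      refine Prod.ext ?_ ?_
      · show -(A.d (q + 1) 0) = 0
        simp
      · show f.s (q + 1) 0 + B.d q w = B.d q w
        simp⟩)

def mP {A B : Cx} (f : Hm A B) (q : ℤ) : H (cone f) q →ₗ[ℂ] H A (q + 1) :=
  ind (cone f) A q (q + 1) (LinearMap.fst ℂ (A.X (q + 1 + 1)) (B.X (q + 1)))
    (fun z hz => by
      obtain ⟨x, y⟩ := z
      have h1 : -(A.d (q + 1 + 1) x) = 0 := congrArg Prod.fst hz
      exact neg_eq_zero.mp h1)
    (fun z => by
      obtain ⟨x, y⟩ := z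
      exact ⟨-x, map_neg _ _⟩)

theorem exSI {A B : Cx} (f : Hm A B) (q : ℤ) :
    LinearMap.ker (mI f q) = LinearMap.range (mS f q) := by
  ext z
  obtain ⟨y, hy, rfl⟩ := cl_surj B q z
  rw [LinearMap.mem_ker, mI, ind_cl, cl_eq_zero]
  constructor
  · rintro ⟨⟨x, w⟩, hw⟩
    have h1 : -(A.d (q + 1) x) = 0 := congrArg Prod.fst hw
    have h2 : f.s (q + 1) x + B.d q w = y := congrArg Prod.snd hw
    refine ⟨cl A q x (neg_eq_zero.mp h1), ?_⟩
    rw [mS, ind_cl, cl_eq_cl]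
    exact ⟨-w, by rw [map_neg, ← h2]; abel⟩
  · rintro ⟨z, hz⟩
    obtain ⟨x, hx, rfl⟩ := cl_surj A q z
    rw [mS, ind_cl, cl_eq_cl] at hz
    obtain ⟨w, hw⟩ := hz
    refine ⟨((x, -w) : A.X (q + 1) × B.X q), (cone_d f q x (-w)).trans (Prod.ext ?_ ?_)⟩
    · show -(A.d (q + 1) x) = 0
      rw [hx, neg_zero]
    · show f.s (q + 1) x + B.d q (-w) = y
      rw [map_neg, hw]; abel

theorem exIP {A B : Cx} (f : Hm A B) (q : ℤ) :
    LinearMap.ker (mP f q) = LinearMap.range (mI f q) := by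
  ext z
  obtain ⟨⟨x, y⟩, hz, rfl⟩ := cl_surj (cone f) q z
  have h2 : f.s (q + 1 + 1) x + B.d (q + 1) y = 0 := congrArg Prod.snd hz
  rw [LinearMap.mem_ker, mP, ind_cl, cl_eq_zero]
  constructor
  · rintro ⟨w, hw⟩
    have hw' : A.d (q + 1) w = x := hw
    refine ⟨cl B q (y + f.s (q + 1) w) (by rw [map_add, f.ds, hw']; exact (add_comm _ _).trans h2), ?_⟩
    rw [mI, ind_cl, cl_eq_cl]
    refine ⟨((w, 0) : A.X (q + 1) × B.X q), (cone_d f q w 0).trans (Prod.ext ?_ ?_)⟩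
    · show -(A.d (q + 1) w) = 0 - x
      rw [hw', zero_sub]
    · show f.s (q + 1) w + B.d q 0 = (y + f.s (q + 1) w) - y
      rw [map_zero]; abel
  · rintro ⟨z', hz'⟩
    obtain ⟨y', hy', rfl⟩ := cl_surj B q z'
    rw [mI, ind_cl, cl_eq_cl] at hz'
    obtain ⟨⟨w, v⟩, hw⟩ := hz'
    have h1 : -(A.d (q + 1) w) = 0 - x := congrArg Prod.fst hw
    refine ⟨w, ?_⟩
    show A.d (q + 1) w = x
    rw [zero_sub] at h1
    exact neg_injective h1

theorem exPS {A B : Cx} (f : Hm A B) (q : ℤ) :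
    LinearMap.ker (mS f (q + 1)) = LinearMap.range (mP f q) := by
  ext z
  obtain ⟨x, hx, rfl⟩ := cl_surj A (q + 1) z
  rw [LinearMap.mem_ker, mS, ind_cl, cl_eq_zero]
  constructor
  · rintro ⟨w, hw⟩
    refine ⟨cl (cone f) q ((x, -w) : A.X (q + 1 + 1) × B.X (q + 1))
      ((cone_d f (q + 1) x (-w)).trans (Prod.ext ?_ ?_)), rfl⟩
    · show -(A.d (q + 1 + 1) x) = 0
      rw [hx, neg_zero]
    · show f.s (q + 1 + 1) x + B.d (q + 1) (-w) = 0
      rw [map_neg, hw]; abel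
  · rintro ⟨z', hz'⟩
    obtain ⟨⟨x', y'⟩, hz, rfl⟩ := cl_surj (cone f) q z'
    have h2 : f.s (q + 1 + 1) x' + B.d (q + 1) y' = 0 := congrArg Prod.snd hz
    rw [mP, ind_cl, cl_eq_cl] at hz'
    obtain ⟨w, hw⟩ := hz'
    have hw' : A.d (q + 1) w = x' - x := hw
    refine ⟨-y' - f.s (q + 1) w, ?_⟩
    rw [map_sub, map_neg, f.ds, hw', map_sub, eq_neg_of_add_eq_zero_left h2]
    abel

theorem fin_mid {U V W : Type} [AddCommGroup U] [Module ℂ U] [AddCommGroup V] [Module ℂ V]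
    [AddCommGroup W] [Module ℂ W] [Module.Finite ℂ U] [Module.Finite ℂ W]
    (f : U →ₗ[ℂ] V) (g : V →ₗ[ℂ] W) (h : LinearMap.ker g = LinearMap.range f) :
    Module.Finite ℂ V := by
  have h1 : Module.Finite ℂ (LinearMap.ker g) := by rw [h]; infer_instance
  have h2 : Module.Finite ℂ (V ⧸ LinearMap.ker g) :=
    Module.Finite.equiv g.quotKerEquivRange.symm
  exact Module.Finite.of_submodule_quotient (LinearMap.ker g)

theorem rk_mid {U V W : Type} [AddCommGroup U] [Module ℂ U] [AddCommGroup V] [Module ℂ V]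
    [AddCommGroup W] [Module ℂ W] [Module.Finite ℂ V]
    (f : U →ₗ[ℂ] V) (g : V →ₗ[ℂ] W) (h : LinearMap.ker g = LinearMap.range f) :
    finrank ℂ V = finrank ℂ (LinearMap.range f) + finrank ℂ (LinearMap.range g) := by
  rw [← h, add_comm]
  exact (LinearMap.finrank_range_add_finrank_ker g).symm

/-- Finite-dimensional total cohomology. -/
def Good (C : Cx) : Prop :=
  (∀ q, Module.Finite ℂ (H C q)) ∧ {q | finrank ℂ (H C q) ≠ 0}.Finite

/-- The sign. -/
def sg (q : ℤ) : ℤ := ((Int.negOnePow q : ℤˣ) : ℤ)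

theorem sg_succ (q : ℤ) : sg (q + 1) = -sg q := by
  simp [sg, Int.negOnePow_succ]

/-- Euler characteristic (with the sign of the index `q` of `H C q`). -/
noncomputable def chi (C : Cx) : ℤ := ∑ᶠ q, sg q * (finrank ℂ (H C q) : ℤ)

theorem alt_shift (a : ℤ → ℤ) : ∑ᶠ q, sg q * a (q + 1) = -∑ᶠ q, sg q * a q := by
  rw [← finsum_neg_distrib, ← finsum_comp_equiv (Equiv.addRight (1 : ℤ))
    (f := fun q => -(sg q * a q))]
  refine finsum_congr fun q => ?_
  simp [sg_succ]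

theorem fin_supp (a : ℤ → ℕ) (h : {q | a q ≠ 0}.Finite) :
    (Function.support fun q => sg q * (a q : ℤ)).Finite := by
  refine h.subset fun q hq h0 => hq ?_
  simp [h0]

theorem fin_shift (a : ℤ → ℕ) (h : {q | a q ≠ 0}.Finite) : {q | a (q + 1) ≠ 0}.Finite :=
  h.preimage (f := fun q => q + 1) (add_left_injective 1).injOn

theorem good_cone {A B : Cx} (f : Hm A B) (hA : Good A) (hB : Good B) :
    Good (cone f) ∧ chi (cone f) = chi B - chi A := by
  have iA := hA.1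
  have iB := hB.1
  have iT : ∀ q, Module.Finite ℂ (H (cone f) q) := fun q => fin_mid _ _ (exIP f q)
  have e1 := fun q => rk_mid _ _ (exSI f q)
  have e2 := fun q => rk_mid _ _ (exIP f q)
  have e3 := fun q => rk_mid _ _ (exPS f q)
  have fA := fin_shift _ hA.2
  have fT : {q | finrank ℂ (H (cone f) q) ≠ 0}.Finite := by
    refine (hB.2.union fA).subset fun q hq => ?_
    by_contra hc
    simp only [Set.mem_union, Set.mem_ofPred_eq, not_or, not_not] at hc hq
    have := e1 q; have := e2 q; have := e3 q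
    omega
  have fa : {q | finrank ℂ (LinearMap.range (mS f q)) ≠ 0}.Finite := by
    refine hB.2.subset fun q hq => ?_
    simp only [Set.mem_ofPred_eq] at hq ⊢
    have := e1 q
    omega
  refine ⟨⟨iT, fT⟩, ?_⟩
  have k1 := alt_shift fun q => (finrank ℂ (H A q) : ℤ)
  have k2 := alt_shift fun q => (finrank ℂ (LinearMap.range (mS f q)) : ℤ)
  have s1 := fin_supp _ fT
  have s2 := fin_supp _ fa
  have s3 := fin_supp _ (fin_shift _ fa)
  have s4 := fin_supp _ hB.2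
  have s5 := fin_supp _ fA
  have k3 : ∑ᶠ q, (sg q * (finrank ℂ (H (cone f) q) : ℤ)
        + (sg q * (finrank ℂ (LinearMap.range (mS f q)) : ℤ)
          + sg q * (finrank ℂ (LinearMap.range (mS f (q + 1))) : ℤ)))
      = ∑ᶠ q, (sg q * (finrank ℂ (H B q) : ℤ) + sg q * (finrank ℂ (H A (q + 1)) : ℤ)) := by
    refine finsum_congr fun q => ?_
    rw [e1 q, e2 q, e3 q]
    push_cast
    ring
  have s6 : (Function.support fun q => sg q * (finrank ℂ (LinearMap.range (mS f q)) : ℤ)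
      + sg q * (finrank ℂ (LinearMap.range (mS f (q + 1))) : ℤ)).Finite :=
    (s2.union s3).subset (Function.support_add _ _)
  rw [finsum_add_distrib s1 s6, finsum_add_distrib s2 s3, finsum_add_distrib s4 s5, k1, k2] at k3
  unfold chi
  linarith

theorem good_src {A B : Cx} (f : Hm A B) (hT : Good (cone f)) (hB : Good B) : Good A := by
  have iT := hT.1
  have iB := hB.1
  have iA1 : ∀ q, Module.Finite ℂ (H A (q + 1)) := fun q => fin_mid _ _ (exPS f q)
  have iA : ∀ q, Module.Finite ℂ (H A q) := fun q => by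
    have := iA1 (q - 1)
    rwa [sub_add_cancel] at this
  have e1 := fun q => rk_mid _ _ (exSI f q)
  have e2 := fun q => rk_mid _ _ (exIP f q)
  have e3 := fun q => rk_mid _ _ (exPS f q)
  refine ⟨iA, ?_⟩
  have f1 : {q | finrank ℂ (H A (q + 1)) ≠ 0}.Finite := by
    refine (hT.2.union (fin_shift _ hB.2)).subset fun q hq => ?_
    by_contra hc
    simp only [Set.mem_union, Set.mem_ofPred_eq, not_or, not_not] at hc hq
    have := e1 (q + 1); have := e2 q; have := e3 q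
    omega
  refine (f1.image (fun q => q + 1)).subset fun q hq => ⟨q - 1, ?_, sub_add_cancel q 1⟩
  simp only [Set.mem_ofPred_eq] at hq ⊢
  rwa [sub_add_cancel]

theorem good_acyc (C : Cx) (h : ∀ q x, C.d (q + 1) x = 0 → ∃ w, C.d q w = x) :
    Good C ∧ chi C = 0 := by
  have i : ∀ q, Subsingleton (H C q) := fun q => by
    refine subsingleton_of_forall_eq 0 fun z => ?_
    obtain ⟨x, hx, rfl⟩ := cl_surj C q z
    exact (cl_eq_zero C q x hx).2 (h q x hx)
  have e : ∀ q, finrank ℂ (H C q) = 0 := fun q => finrank_zero_of_subsingleton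
  refine ⟨⟨fun q => inferInstance, by simp [e]⟩, by simp [chi, e]⟩

end Pool.Agent.Lib.KOS29
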