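import Pool.Agent.Lib.KOS29.Cone

/-! Koszul argument: finite-dimensionality descends, and the Euler characteristic is killed by
a power of the difference operator. -/

namespace Pool.Agent.Lib.KOS29

open Module

/-- A tower of complexes with commuting chain maps `s a`, linear maps `h a` backwards and a
homotopy `k`. -/
structure Fam (ι : Type) where
  C : ℕ → Cx
  s : ι → ∀ i, Hm (C i) (C (i + 1))
  h : ι → ∀ i q, (C (i + 1)).X q →ₗ[ℂ] (C i).X q
  k : ∀ i q, (C i).X (q + 1) →ₗ[ℂ] (C i).X q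
  ss : ∀ a b i q x, (s a (i + 1)).s q ((s b i).s q x) = (s b (i + 1)).s q ((s a i).s q x)
  hs : ∀ a b i q x, h a (i + 1) q ((s b (i + 1)).s q x) = (s b i).s q (h a i q x)
  ks : ∀ b i q x, k (i + 1) q ((s b i).s (q + 1) x) = (s b i).s q (k i q x)

/-- The tower of cones of `s a`. -/
def Fam.step {ι : Type} (F : Fam ι) (a : ι) : Fam ι where
  C i := cone (F.s a i)
  s b i :=
    { s := fun q => LinearMap.prodMap ((F.s b i).s (q + 1)) ((F.s b (i + 1)).s q)
      ds := fun q z => by
        obtain ⟨x, y⟩ := z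
        refine Prod.ext ?_ ?_
        · show -((F.C (i + 1)).d (q + 1) ((F.s b i).s (q + 1) x))
            = (F.s b i).s (q + 1 + 1) (-((F.C i).d (q + 1) x))
          rw [map_neg, (F.s b i).ds]
        · show (F.s a (i + 1)).s (q + 1) ((F.s b i).s (q + 1) x)
              + (F.C (i + 1 + 1)).d q ((F.s b (i + 1)).s q y)
            = (F.s b (i + 1)).s (q + 1) ((F.s a i).s (q + 1) x + (F.C (i + 1)).d q y)
          rw [map_add, (F.s b (i + 1)).ds, F.ss] }
  h b i q := LinearMap.prodMap (F.h b i (q + 1)) (F.h b (i + 1) q)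
  k i q := LinearMap.prod (LinearMap.coprod (-(F.k i (q + 1))) (F.h a i (q + 1)))
    (F.k (i + 1) q ∘ₗ LinearMap.snd ℂ _ _)
  ss b c i q z := by
    obtain ⟨x, y⟩ := z
    exact Prod.ext (F.ss b c i (q + 1) x) (F.ss b c (i + 1) q y)
  hs b c i q z := by
    obtain ⟨x, y⟩ := z
    exact Prod.ext (F.hs b c i (q + 1) x) (F.hs b c (i + 1) q y)
  ks b i q z := by
    obtain ⟨x, y⟩ := z
    refine Prod.ext ?_ (F.ks b (i + 1) q y)
    show -(F.k (i + 1) (q + 1) ((F.s b i).s (q + 1 + 1) x))
        + F.h a (i + 1) (q + 1) ((F.s b (i + 1)).s (q + 1) y)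
      = (F.s b i).s (q + 1) (-(F.k i (q + 1) x) + F.h a i (q + 1) y)
    rw [map_add, map_neg, F.ks, F.hs]

/-- The operator `sum h a ∘ s a` over a list. -/
def Fam.E {ι : Type} (F : Fam ι) (i : ℕ) (q : ℤ) : List ι → ((F.C i).X q →ₗ[ℂ] (F.C i).X q)
  | [] => 0
  | a :: l => F.h a i q ∘ₗ (F.s a i).s q + F.E i q l

/-- The operator `d k + k d + E`. -/
def Fam.P {ι : Type} (F : Fam ι) (l : List ι) (i : ℕ) (q : ℤ) :
    (F.C i).X (q + 1) →ₗ[ℂ] (F.C i).X (q + 1) :=
  (F.C i).d q ∘ₗ F.k i q + F.k i (q + 1) ∘ₗ (F.C i).d (q + 1) + F.E i (q + 1) l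

theorem step_E {ι : Type} (F : Fam ι) (a : ι) (i : ℕ) (q : ℤ) (l : List ι)
    (x : (F.C i).X (q + 1)) (y : (F.C (i + 1)).X q) :
    (F.step a).E i q l ((x, y) : (F.C i).X (q + 1) × (F.C (i + 1)).X q)
      = ((F.E i (q + 1) l x, F.E (i + 1) q l y) : (F.C i).X (q + 1) × (F.C (i + 1)).X q) := by
  induction l with
  | nil => rfl
  | cons b l ih =>
    show (F.step a).h b i q (((F.step a).s b i).s q (x, y)) + (F.step a).E i q l (x, y) = _
    rw [ih]
    rfl

theorem step_P {ι : Type} (F : Fam ι) (a : ι) (i : ℕ) (q : ℤ) (l : List ι)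
    (x : (F.C i).X (q + 1 + 1)) (y : (F.C (i + 1)).X (q + 1)) :
    (F.step a).P l i q ((x, y) : (F.C i).X (q + 1 + 1) × (F.C (i + 1)).X (q + 1))
      = ((F.P (a :: l) i (q + 1) x + (F.h a i (q + 1 + 1) ((F.C (i + 1)).d (q + 1) y)
            - (F.C i).d (q + 1) (F.h a i (q + 1) y)), F.P (a :: l) (i + 1) q y)
          : (F.C i).X (q + 1 + 1) × (F.C (i + 1)).X (q + 1)) := by
  show ((F.step a).C i).d q ((F.step a).k i q (x, y))
      + (F.step a).k i (q + 1) (((F.step a).C i).d (q + 1) (x, y))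
      + (F.step a).E i (q + 1) l (x, y) = _
  rw [step_E]
  refine Prod.ext ?_ ?_
  · show -((F.C i).d (q + 1) (-(F.k i (q + 1) x) + F.h a i (q + 1) y))
        + (-(F.k i (q + 1 + 1) (-((F.C i).d (q + 1 + 1) x)))
          + F.h a i (q + 1 + 1) ((F.s a i).s (q + 1 + 1) x + (F.C (i + 1)).d (q + 1) y))
        + F.E i (q + 1 + 1) l x
      = (F.C i).d (q + 1) (F.k i (q + 1) x) + F.k i (q + 1 + 1) ((F.C i).d (q + 1 + 1) x)
        + (F.h a i (q + 1 + 1) ((F.s a i).s (q + 1 + 1) x) + F.E i (q + 1 + 1) l x)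
        + (F.h a i (q + 1 + 1) ((F.C (i + 1)).d (q + 1) y)
            - (F.C i).d (q + 1) (F.h a i (q + 1) y))
    simp only [map_add, map_neg]
    abel
  · show (F.s a i).s (q + 1) (-(F.k i (q + 1) x) + F.h a i (q + 1) y)
        + (F.C (i + 1)).d q (F.k (i + 1) q y) + F.k (i + 1) (q + 1)
          ((F.s a i).s (q + 1 + 1) x + (F.C (i + 1)).d (q + 1) y)
        + F.E (i + 1) (q + 1) l y
      = (F.C (i + 1)).d q (F.k (i + 1) q y) + F.k (i + 1) (q + 1) ((F.C (i + 1)).d (q + 1) y)
        + (F.h a (i + 1) (q + 1) ((F.s a (i + 1)).s (q + 1) y) + F.E (i + 1) (q + 1) l y)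
    simp only [map_add, map_neg, F.ks, F.hs]
    abel

theorem step_bij {ι : Type} (F : Fam ι) (a : ι) (l : List ι)
    (hb : ∀ i q, Function.Bijective (F.P (a :: l) i q)) :
    ∀ i q, Function.Bijective ((F.step a).P l i q) := by
  intro i q
  constructor
  · refine (injective_iff_map_eq_zero _).2 ?_
    rintro ⟨x, y⟩ hz
    have hz' := (step_P F a i q l x y).symm.trans hz
    have h2 : F.P (a :: l) (i + 1) q y = 0 := congrArg Prod.snd hz'
    have hy : y = 0 := (injective_iff_map_eq_zero _).1 (hb (i + 1) q).1 y h2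
    subst hy
    have h1 : F.P (a :: l) i (q + 1) x + (F.h a i (q + 1 + 1) ((F.C (i + 1)).d (q + 1) 0)
        - (F.C i).d (q + 1) (F.h a i (q + 1) 0)) = 0 := congrArg Prod.fst hz'
    simp only [map_zero, sub_zero, add_zero] at h1
    have hx : x = 0 := (injective_iff_map_eq_zero _).1 (hb i (q + 1)).1 x h1
    subst hx
    rfl
  · rintro ⟨u, v⟩
    obtain ⟨y, hy⟩ := (hb (i + 1) q).2 v
    obtain ⟨x, hx⟩ := (hb i (q + 1)).2 (u - (F.h a i (q + 1 + 1) ((F.C (i + 1)).d (q + 1) y)
      - (F.C i).d (q + 1) (F.h a i (q + 1) y)))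
    refine ⟨((x, y) : (F.C i).X (q + 1 + 1) × (F.C (i + 1)).X (q + 1)),
      (step_P F a i q l x y).trans (Prod.ext ?_ hy)⟩
    show F.P (a :: l) i (q + 1) x + _ = u
    rw [hx, sub_add_cancel]

theorem acyc_nil {ι : Type} (F : Fam ι) (hb : ∀ i q, Function.Bijective (F.P [] i q)) (i : ℕ) :
    Good (F.C i) ∧ chi (F.C i) = 0 := by
  refine good_acyc _ fun q z hz => ?_
  obtain ⟨w, hw⟩ := (hb i q).2 z
  have e : ∀ q w, F.P [] i q w
      = (F.C i).d q (F.k i q w) + F.k i (q + 1) ((F.C i).d (q + 1) w) := fun q w => add_zero _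
  have h1 : F.P [] i (q + 1) ((F.C i).d (q + 1) w) = 0 := by
    rw [e, (F.C i).dd, map_zero, add_zero, ← hz, ← hw, e, map_add, (F.C i).dd, zero_add]
  have h2 := (injective_iff_map_eq_zero _).1 (hb i (q + 1)).1 _ h1
  refine ⟨F.k i q w, ?_⟩
  rw [← hw, e, h2, map_zero, add_zero]

theorem good_down {ι : Type} (l : List ι) : ∀ (F : Fam ι),
    (∀ i q, Function.Bijective (F.P l i q)) → ∀ i, (∀ j, i < j → Good (F.C j)) → Good (F.C i) := by
  induction l with
  | nil => exact fun F hb i _ => (acyc_nil F hb i).1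
  | cons a l ih =>
    intro F hb i hg
    refine good_src (F.s a i) (ih (F.step a) (step_bij F a l hb) i fun j hj => ?_)
      (hg _ (Nat.lt_succ_self i))
    exact (good_cone (F.s a j) (hg j hj) (hg (j + 1) (by omega))).1

theorem good_all {ι : Type} (l : List ι) (F : Fam ι)
    (hb : ∀ i q, Function.Bijective (F.P l i q)) (j0 : ℕ) (hg : ∀ j, j0 ≤ j → Good (F.C j)) :
    ∀ i, Good (F.C i) := by
  induction j0 with
  | zero => exact fun i => hg i (Nat.zero_le i)
  | succ j0 ih =>
    refine ih fun j hj => ?_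
    rcases hj.eq_or_lt with rfl | hlt
    · exact good_down l F hb _ fun j hj => hg j hj
    · exact hg j hlt

theorem chi_diff {ι : Type} (l : List ι) : ∀ (F : Fam ι),
    (∀ i q, Function.Bijective (F.P l i q)) → (∀ j, Good (F.C j)) →
    (fwdDiff (1 : ℕ))^[l.length] (fun i => chi (F.C i)) = 0 := by
  induction l with
  | nil => exact fun F hb _ => funext fun i => (acyc_nil F hb i).2
  | cons a l ih =>
    intro F hb hg
    have h := ih (F.step a) (step_bij F a l hb)
      fun j => (good_cone (F.s a j) (hg j) (hg (j + 1))).1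
    have e : (fun i => chi ((F.step a).C i)) = fwdDiff (1 : ℕ) (fun i => chi (F.C i)) :=
      funext fun j => (good_cone (F.s a j) (hg j) (hg (j + 1))).2
    rw [e] at h
    exact h

/-! Difference operators. -/

theorem diff_comm {G : Type} [AddCommGroup G] (s t : G) (f : G → ℤ) :
    fwdDiff s (fwdDiff t f) = fwdDiff t (fwdDiff s f) := by
  funext g
  simp only [fwdDiff]
  rw [add_right_comm g s t]
  ring

theorem diff_iter_comm {G : Type} [AddCommGroup G] (s t : G) (r : ℕ) (f : G → ℤ) :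
    (fwdDiff s)^[r] (fwdDiff t f) = fwdDiff t ((fwdDiff s)^[r] f) :=
  (Function.Commute.iterate_left (f := fwdDiff s) (g := fwdDiff t) (diff_comm s t) r) f

theorem diff_iter_shift {G : Type} [AddCommGroup G] (s t : G) (r : ℕ) : ∀ (f : G → ℤ),
    (fwdDiff s)^[r] (fun g => f (g - t)) = fun g => (fwdDiff s)^[r] f (g - t) := by
  induction r with
  | zero => exact fun f => rfl
  | succ r ih =>
    intro f
    rw [Function.iterate_succ_apply, Function.iterate_succ_apply, ← ih]
    refine congrArg _ (funext fun g => ?_)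
    simp only [fwdDiff]
    rw [add_sub_right_comm]

theorem diff_iter_sub {G : Type} [AddCommGroup G] (s : G) (r : ℕ) : ∀ (f f' : G → ℤ),
    (fwdDiff s)^[r] (fun g => f g - f' g)
      = fun g => (fwdDiff s)^[r] f g - (fwdDiff s)^[r] f' g := by
  induction r with
  | zero => exact fun f f' => rfl
  | succ r ih =>
    intro f f'
    rw [Function.iterate_succ_apply, Function.iterate_succ_apply, Function.iterate_succ_apply,
      ← ih]
    refine congrArg _ (funext fun g => ?_)
    simp only [fwdDiff]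
    ring

theorem diff_zero {G : Type} [AddCommMonoid G] (s : G) (r : ℕ) :
    (fwdDiff s)^[r] (0 : G → ℤ) = 0 :=
  Function.iterate_fixed (funext fun g => by simp [fwdDiff]) r

/-- If powers of the differences along `t1` and `t2` kill `f`, so does a power of the difference
along `t1 - t2`. -/
theorem diff_sub {G : Type} [AddCommGroup G] (t1 t2 : G) (n : ℕ) : ∀ (r1 r2 : ℕ) (f : G → ℤ),
    r1 + r2 = n → (fwdDiff t1)^[r1] f = 0 → (fwdDiff t2)^[r2] f = 0 →
    (fwdDiff (t1 - t2))^[n] f = 0 := by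
  induction n with
  | zero =>
    intro r1 r2 f hn h1 _
    obtain rfl : r1 = 0 := by omega
    exact h1
  | succ n ih =>
    intro r1 r2 f hn h1 h2
    rcases r1 with _ | r1
    · obtain rfl : f = 0 := h1
      exact diff_zero _ _
    rcases r2 with _ | r2
    · obtain rfl : f = 0 := h2
      exact diff_zero _ _
    have a1 := ih r1 (r2 + 1) (fwdDiff t1 f) (by omega) h1
      (by rw [diff_iter_comm, h2]; exact diff_zero t1 1)
    have a2 := ih (r1 + 1) r2 (fwdDiff t2 f) (by omega)
      (by rw [diff_iter_comm, h1]; exact diff_zero t2 1) h2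
    have e : fwdDiff (t1 - t2) f
        = fun g => (fun g => fwdDiff t1 f g - fwdDiff t2 f g) (g - t2) := by
      funext g
      simp only [fwdDiff]
      rw [sub_add_cancel, sub_add_eq_add_sub, add_sub_assoc]
      ring
    rw [Function.iterate_succ_apply, e,
      diff_iter_shift _ t2 n (fun g => fwdDiff t1 f g - fwdDiff t2 f g), diff_iter_sub, a1, a2]
    funext g
    simp

theorem diff_seq {G : Type} [AddCommMonoid G] (t : G) (it : ℕ → G) (hit : ∀ i, it (i + 1) = it i + t)
    (r : ℕ) : ∀ (f : G → ℤ),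
    (fwdDiff (1 : ℕ))^[r] (fun i => f (it i)) = fun i => (fwdDiff t)^[r] f (it i) := by
  induction r with
  | zero => exact fun f => rfl
  | succ r ih =>
    intro f
    rw [Function.iterate_succ_apply, Function.iterate_succ_apply, ← ih]
    refine congrArg _ (funext fun i => ?_)
    simp only [fwdDiff, hit]

/-- A sequence killed by a power of the difference operator and eventually zero is zero. -/
theorem seq_zero (r : ℕ) : ∀ (u : ℕ → ℤ), (fwdDiff (1 : ℕ))^[r] u = 0 →
    (∃ m0, ∀ m, m0 ≤ m → u m = 0) → u = 0 := by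
  induction r with
  | zero => exact fun u h _ => h
  | succ r ih =>
    rintro u h ⟨m0, hm⟩
    have h1 := ih (fwdDiff 1 u) h ⟨m0, fun m hm' => by
      simp [fwdDiff, hm m hm', hm (m + 1) (by omega)]⟩
    have h2 : ∀ m, u (m + 1) = u m := fun m => by
      have := congrFun h1 m
      simp only [fwdDiff, Pi.zero_apply] at this
      linarith
    have h3 : ∀ m, u m = u 0 := fun m => by
      induction m with
      | zero => rfl
      | succ m ihm => rw [h2, ihm]
    funext m
    rw [h3 m, ← h3 m0]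
    exact hm m0 le_rfl

/-- The numerical conclusion. -/
theorem inf_ne {G : Type} [AddCommGroup G] (f : G → ℤ) (t1 t2 g : G) (r1 r2 : ℕ)
    (h1 : (fwdDiff t1)^[r1] f = 0) (h2 : (fwdDiff t2)^[r2] f = 0) (hg : f g ≠ 0) :
    {m : ℕ | f (g + m • (t1 - t2)) ≠ 0}.Infinite := by
  intro hfin
  obtain ⟨m0, hm0⟩ := hfin.bddAbove
  have h3 := diff_sub t1 t2 _ r1 r2 f rfl h1 h2
  have h4 := diff_seq (t1 - t2) (fun m => g + m • (t1 - t2))
    (fun i => by rw [succ_nsmul, add_assoc]) (r1 + r2) f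
  have h5 := seq_zero (r1 + r2) (fun m => f (g + m • (t1 - t2))) (by rw [h4, h3]; rfl)
    ⟨m0 + 1, fun m hm => by
      by_contra hc
      have := hm0 hc
      omega⟩
  exact hg (by simpa using congrFun h5 0)

end Pool.Agent.Lib.KOS29
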