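import Mathlib

/-! Euler characteristics of Koszul strands and the Hilbert polynomial in two variables. -/

namespace Pool.Agent.Lib.KOS29.Num

open Finset Module

section Diff

variable {G : Type} [AddCommMonoid G]

theorem dcomm (s t : G) (r : ℕ) (f : G → ℚ) :
    (fwdDiff s)^[r] (fwdDiff t f) = fwdDiff t ((fwdDiff s)^[r] f) := by
  refine (Function.Commute.iterate_left (f := fwdDiff s) (g := fwdDiff t) (fun f => ?_) r) f
  funext g
  simp only [fwdDiff]
  rw [add_right_comm g s t]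
  ring

theorem dseq {H : Type} [AddCommMonoid H] (u : H) (t : G) (it : H → G)
    (hit : ∀ i, it (i + u) = it i + t) (r : ℕ) : ∀ (f : G → ℚ),
    (fwdDiff u)^[r] (fun i => f (it i)) = fun i => (fwdDiff t)^[r] f (it i) := by
  induction r with
  | zero => exact fun f => rfl
  | succ r ih =>
    intro f
    rw [Function.iterate_succ_apply, Function.iterate_succ_apply, ← ih]
    refine congrArg _ (funext fun i => ?_)
    simp only [fwdDiff, hit]

theorem dzero (s : G) (r : ℕ) : (fwdDiff s)^[r] (0 : G → ℚ) = 0 :=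
  Function.iterate_fixed (funext fun g => by simp [fwdDiff]) r

theorem dadd (t1 t2 : G) (n : ℕ) : ∀ (r1 r2 : ℕ) (f : G → ℚ),
    r1 + r2 = n → (fwdDiff t1)^[r1] f = 0 → (fwdDiff t2)^[r2] f = 0 →
    (fwdDiff (t1 + t2))^[n] f = 0 := by
  induction n with
  | zero =>
    intro r1 r2 f hn h1 _
    obtain rfl : r1 = 0 := by omega
    exact h1
  | succ n ih =>
    intro r1 r2 f hn h1 h2
    rcases r1 with _ | r1
    · obtain rfl : f = 0 := h1
      exact dzero _ _
    rcases r2 with _ | r2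
    · obtain rfl : f = 0 := h2
      exact dzero _ _
    have a1 := ih r1 (r2 + 1) (fwdDiff t1 f) (by omega) h1 (by rw [dcomm, h2]; exact dzero t1 1)
    have a2 := ih (r1 + 1) r2 (fwdDiff t2 f) (by omega) (by rw [dcomm, h1]; exact dzero t2 1) h2
    have e : fwdDiff (t1 + t2) f = (fun g => fwdDiff t1 f (g + t2)) + fwdDiff t2 f := by
      funext g
      simp only [fwdDiff, Pi.add_apply]
      rw [add_right_comm g t2 t1, add_assoc g t1 t2]
      ring
    rw [Function.iterate_succ_apply, e, fwdDiff_iter_add, a2,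
      dseq (t1 + t2) (t1 + t2) (fun g => g + t2) (fun g => add_right_comm _ _ _), a1]
    funext g
    simp

theorem dneg (t u : G) (h : t + u = 0) (r : ℕ) : ∀ f : G → ℚ, (fwdDiff t)^[r] f = 0 →
    (fwdDiff u)^[r] f = 0 := by
  induction r with
  | zero => exact fun f h => h
  | succ r ih =>
    intro f hf
    have a1 := ih (fwdDiff t f) hf
    have e : fwdDiff u f = (-1 : ℚ) • fun g => fwdDiff t f (g + u) := by
      funext g
      simp only [fwdDiff, Pi.smul_apply, smul_eq_mul]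
      rw [add_assoc, add_comm u t, h, add_zero]
      ring
    rw [Function.iterate_succ_apply, e, fwdDiff_iter_const_smul,
      dseq u u (fun g => g + u) (fun g => rfl), a1]
    funext g
    simp

theorem dnsmul (t : G) (f : G → ℚ) (r : ℕ) (h : (fwdDiff t)^[r] f = 0) (c : ℕ) :
    ∃ r', (fwdDiff (c • t))^[r'] f = 0 := by
  induction c with
  | zero => exact ⟨1, funext fun g => by simp [fwdDiff]⟩
  | succ c ih =>
    obtain ⟨r', h'⟩ := ih
    exact ⟨_, by rw [succ_nsmul]; exact dadd _ _ _ r' r f rfl h' h⟩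

theorem dsum (t : G) (r : ℕ) (f : G → ℚ) (y : G) : (fwdDiff t)^[r] f y
    = (-1) ^ r * ∑ k ∈ range (r + 1), (-1) ^ k * (r.choose k : ℚ) * f (y + k • t) := by
  rw [fwdDiff_iter_eq_sum_shift, mul_sum]
  refine sum_congr rfl fun k hk => ?_
  obtain ⟨m, rfl⟩ := Nat.exists_eq_add_of_le (Nat.lt_succ_iff.1 (mem_range.1 hk))
  rw [Nat.add_sub_cancel_left, zsmul_eq_mul, pow_add]
  push_cast
  have : ((-1 : ℚ) ^ k) * (-1) ^ k = 1 := by rw [← mul_pow]; simp
  linear_combination (-((-1) ^ m * ((k + m).choose k : ℚ) * f (y + k • t))) * this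

end Diff

theorem zeroZ (r : ℕ) : ∀ (u : ℤ → ℚ), (fwdDiff (1 : ℤ))^[r] u = 0 →
    (∃ m0, ∀ m, m0 ≤ m → u m = 0) → u = 0 := by
  induction r with
  | zero => exact fun u h _ => h
  | succ r ih =>
    rintro u h ⟨m0, hm⟩
    have h1 := ih (fwdDiff 1 u) h ⟨m0, fun m hm' => by
      simp [fwdDiff, hm m hm', hm (m + 1) (by omega)]⟩
    have h2 : ∀ m, u (m + 1) = u m := fun m => by
      have := congrFun h1 m
      simp only [fwdDiff, Pi.zero_apply] at this
      linarith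
    have h3 : ∀ m, u m = u 0 := fun m => by
      induction m using Int.induction_on with
      | zero => rfl
      | succ m ihm => rw [h2, ihm]
      | pred m ihm => rw [← h2, sub_add_cancel, ihm]
    funext m
    rw [h3 m, ← h3 m0]
    exact hm m0 le_rfl

theorem zeroN (r : ℕ) : ∀ (u : ℕ → ℚ), (fwdDiff (1 : ℕ))^[r] u = 0 →
    (∃ m0, ∀ m, m0 ≤ m → u m = 0) → u = 0 := by
  induction r with
  | zero => exact fun u h _ => h
  | succ r ih =>
    rintro u h ⟨m0, hm⟩
    have h1 := ih (fwdDiff 1 u) h ⟨m0, fun m hm' => by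
      simp [fwdDiff, hm m hm', hm (m + 1) (by omega)]⟩
    have h2 : ∀ m, u (m + 1) = u m := fun m => by
      have := congrFun h1 m
      simp only [fwdDiff, Pi.zero_apply] at this
      linarith
    have h3 : ∀ m, u m = u 0 := fun m => by
      induction m with
      | zero => rfl
      | succ m ihm => rw [h2, ihm]
    funext m
    rw [h3 m, ← h3 m0]
    exact hm m0 le_rfl

/-- A discrete primitive. -/
def prim (u : ℤ → ℚ) (c : ℚ) : ℤ → ℚ
  | Int.ofNat n => c + ∑ i ∈ range n, u i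
  | Int.negSucc n => c - ∑ i ∈ range (n + 1), u (Int.negSucc i)

theorem prim_diff (u : ℤ → ℚ) (c : ℚ) : fwdDiff 1 (prim u c) = u := by
  funext j
  rcases j with n | _ | n
  · show prim u c (Int.ofNat (n + 1)) - prim u c (Int.ofNat n) = u n
    simp [prim, sum_range_succ]
  · show prim u c (Int.ofNat 0) - prim u c (Int.negSucc 0) = _
    simp [prim]
  · show prim u c (Int.negSucc n) - prim u c (Int.negSucc (n + 1)) = _
    simp only [prim, sum_range_succ _ (n + 1)]
    ring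

theorem extZ (r : ℕ) : ∀ h : ℕ → ℚ, (∀ j, 1 ≤ j → (fwdDiff (1 : ℕ))^[r] h j = 0) →
    ∃ F : ℤ → ℚ, (fwdDiff (1 : ℤ))^[r] F = 0 ∧ ∀ j : ℕ, 1 ≤ j → F j = h j := by
  induction r with
  | zero => exact fun h hh => ⟨0, rfl, fun j hj => (hh j hj).symm⟩
  | succ r ih =>
    intro h hh
    obtain ⟨F, h1, h2⟩ := ih (fwdDiff 1 h) hh
    refine ⟨prim F (h 1 - F 0), by rw [Function.iterate_succ_apply, prim_diff, h1], fun j hj => ?_⟩
    induction j, hj using Nat.le_induction with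
    | base => show prim F _ (Int.ofNat 1) = _; simp [prim]
    | succ j hj ihj =>
      have e := congrFun (prim_diff F (h 1 - F 0)) j
      rw [h2 j hj] at e
      simp only [fwdDiff] at e
      push_cast
      linarith

/-- The Euler characteristic of the strand `j` vanishes. -/
def EA (h : ℕ → ℕ → ℕ) (r a j : ℕ) : Prop :=
  ∑ k ∈ range (r + 1), (-1) ^ k * (r.choose k : ℚ) * (h a (j + k) : ℚ) = 0

theorem num (h : ℕ → ℕ → ℕ) (r r2 c j1 : ℕ) (hA : ∀ a j, 1 ≤ j → EA h r a j)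
    (hB : ∀ a j, j1 ≤ j →
      ∑ k ∈ range (r2 + 1), (-1) ^ k * (r2.choose k : ℚ) * (h (a + k) (j + c * k) : ℚ) = 0)
    (P : Polynomial ℚ) (a0 : ℕ) (hP : ∀ᶠ j in Filter.atTop, (h a0 j : ℚ) = P.eval (j : ℚ))
    (hP0 : P.eval 0 ≠ 0) : {a | h a 0 ≠ 0 ∨ ¬ EA h r a 0}.Infinite := by
  have hex := fun a => extZ r (fun j => (h a j : ℚ)) fun j hj => by
    rw [dsum]
    simp only [smul_eq_mul, mul_one]
    rw [hA a j hj, mul_zero]
  choose F hF hFh using hex
  let f : ℕ × ℤ → ℚ := fun p => F p.1 p.2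
  have sl : ∀ (g : ℕ × ℤ → ℚ) (m : ℕ) (a : ℕ), (fwdDiff (1 : ℤ))^[m] (fun j => g (a, j))
      = fun j => (fwdDiff ((0, 1) : ℕ × ℤ))^[m] g (a, j) := fun g m a =>
    dseq (1 : ℤ) ((0, 1) : ℕ × ℤ) (fun j => (a, j)) (fun j => by simp) m g
  have h1 : (fwdDiff ((0, 1) : ℕ × ℤ))^[r] f = 0 := funext fun p =>
    (congrFun (sl f r p.1) p.2).symm.trans (congrFun (hF p.1) p.2)
  have h2 : (fwdDiff ((1, c) : ℕ × ℤ))^[r2] f = 0 := funext fun p => by
    refine congrFun (zeroZ r (fun j => (fwdDiff ((1, c) : ℕ × ℤ))^[r2] f (p.1, j)) ?_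
      ⟨j1 + 1, fun m hm => ?_⟩) p.2
    · rw [sl, (Function.Commute.iterate_right
        (fun g => dcomm ((0, 1) : ℕ × ℤ) ((1, c) : ℕ × ℤ) r g) r2) f, h1, dzero]
      rfl
    · obtain ⟨j, rfl⟩ := Int.eq_ofNat_of_zero_le (show 0 ≤ m by omega)
      have hj : 1 ≤ j := by omega
      rw [dsum, ← mul_zero ((-1 : ℚ) ^ r2), ← hB p.1 j (by omega)]
      refine congrArg _ (sum_congr rfl fun k _ => congrArg _ ?_)
      rw [← hFh (p.1 + k) (j + c * k) (by omega)]
      simp [f, mul_comm]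
  obtain ⟨r3, h3⟩ := dnsmul _ f r (dneg ((0, 1) : ℕ × ℤ) (0, -1) (by simp) r f h1) c
  have h4 := dadd _ _ _ r2 r3 f rfl h2 h3
  have e : ((1, c) : ℕ × ℤ) + c • ((0, -1) : ℕ × ℤ) = (1, 0) := by simp
  rw [e] at h4
  have h5 : F a0 0 = P.eval 0 := by
    obtain ⟨j0, hj0⟩ := Filter.eventually_atTop.1 hP
    have p1 : (fwdDiff (1 : ℤ))^[P.natDegree + 1] (fun j : ℤ => P.eval (j : ℚ)) = 0 := by
      rw [dseq (1 : ℤ) (1 : ℚ) (fun j : ℤ => (j : ℚ)) (fun j => by simp) _ P.eval,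
        Polynomial.fwdDiff_iter_eq_zero_of_degree_lt (Nat.lt_succ_self _)]
      rfl
    have p2 := zeroZ (r + (P.natDegree + 1)) (F a0 + (-1 : ℚ) • fun j : ℤ => P.eval (j : ℚ)) (by
      rw [fwdDiff_iter_add, fwdDiff_iter_const_smul, 
        Function.iterate_add_apply _ r _ (fun j : ℤ => P.eval (j : ℚ)), p1, dzero,
        add_comm r, Function.iterate_add_apply, hF, dzero]
      simp) ⟨j0 + 1, fun m hm => by
        obtain ⟨j, rfl⟩ := Int.eq_ofNat_of_zero_le (show 0 ≤ m by omega)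
        simp [hFh a0 j (by omega), hj0 j (by omega)]⟩
    have := congrFun p2 0
    simp only [Pi.add_apply, Pi.smul_apply, smul_eq_mul, Int.cast_zero, Pi.zero_apply] at this
    linarith
  intro hfin
  obtain ⟨m0, hm0⟩ := hfin.bddAbove
  have h6 := zeroN _ (fun a => f (a, 0)) (by
    rw [dseq (1 : ℕ) ((1, 0) : ℕ × ℤ) (fun a => (a, 0)) (fun a => by simp), h4]; rfl)
    ⟨m0 + 1, fun a ha => by
      have hn : ¬(h a 0 ≠ 0 ∨ ¬ EA h r a 0) := fun hc => by have := hm0 hc; omega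
      push Not at hn
      have b1 := (dsum (1 : ℤ) r (F a) 0).symm.trans (congrFun (hF a) 0)
      have b2 := (mul_eq_zero.1 b1).resolve_left (pow_ne_zero _ (by norm_num))
      have b3 := hn.2
      unfold EA at b3
      rw [sum_range_succ'] at b2 b3
      have b4 : ∑ k ∈ range r, (-1) ^ (k + 1) * (r.choose (k + 1) : ℚ) * F a (0 + (k + 1) • 1)
          = ∑ k ∈ range r, (-1) ^ (k + 1) * (r.choose (k + 1) : ℚ) * (h a (0 + (k + 1)) : ℚ) :=
        sum_congr rfl fun k _ => by rw [← hFh a _ (by omega)]; simp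
      rw [b4] at b2
      simp only [pow_zero, Nat.choose_zero_right, Nat.cast_one, one_mul, add_zero, hn.1,
        Nat.cast_zero, zero_smul] at b2 b3
      show F a 0 = 0
      linarith⟩
  exact hP0 (h5.symm.trans (congrFun h6 a0))

/-- Tuples of degree `k`. -/
def Ck {U : Type} [AddCommGroup U] [Module ℂ U] (r : ℕ) (V : ℕ → Submodule ℂ U) (k : ℕ) :
    Submodule ℂ (Finset (Fin r) → U) :=
  Submodule.pi Set.univ fun J => if J.card = k then V k else ⊥

theorem mem_Ck {U : Type} [AddCommGroup U] [Module ℂ U] {r : ℕ} {V : ℕ → Submodule ℂ U} {k : ℕ}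
    {η : Finset (Fin r) → U} :
    η ∈ Ck r V k ↔ (∀ J, J.card = k → η J ∈ V k) ∧ ∀ J, J.card ≠ k → η J = 0 := by
  simp only [Ck, Submodule.mem_pi, Set.mem_univ, true_imp_iff]
  constructor
  · exact fun h => ⟨fun J hJ => by simpa [hJ] using h J, fun J hJ => by simpa [hJ] using h J⟩
  · rintro ⟨h1, h2⟩ J
    split_ifs with hJ
    · exact h1 J hJ
    · exact h2 J hJ

/-- The tuples as a product. -/
def ckEq {U : Type} [AddCommGroup U] [Module ℂ U] (r : ℕ) (V : ℕ → Submodule ℂ U) (k : ℕ) :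
    Ck r V k ≃ₗ[ℂ] ({J : Finset (Fin r) // J.card = k} → V k) where
  toFun η J := ⟨η.1 J.1, (mem_Ck.1 η.2).1 J.1 J.2⟩
  invFun ξ := ⟨fun J => if hJ : J.card = k then (ξ ⟨J, hJ⟩ : U) else 0,
    mem_Ck.2 ⟨fun J hJ => by simp [hJ], fun J hJ => by simp [hJ]⟩⟩
  map_add' _ _ := rfl
  map_smul' _ _ := rfl
  left_inv η := Subtype.ext (funext fun J => by
    by_cases hJ : J.card = k
    · simp [hJ]
    · simp [hJ, (mem_Ck.1 η.2).2 J hJ])
  right_inv ξ := funext fun J => Subtype.ext (by simp [J.2])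

theorem fin_Ck {U : Type} [AddCommGroup U] [Module ℂ U] (r : ℕ) (V : ℕ → Submodule ℂ U) (k : ℕ)
    [Module.Finite ℂ (V k)] :
    Module.Finite ℂ (Ck r V k) ∧ finrank ℂ (Ck r V k) = r.choose k * finrank ℂ (V k) := by
  refine ⟨Module.Finite.equiv (ckEq r V k).symm, ?_⟩
  rw [(ckEq r V k).finrank_eq, finrank_pi_fintype, sum_const, card_univ, Fintype.card_finset_len,
    Fintype.card_fin, smul_eq_mul]

theorem eul {U : Type} [AddCommGroup U] [Module ℂ U] (r : ℕ) (V : ℕ → Submodule ℂ U)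
    (hV : ∀ k, Module.Finite ℂ (V k)) (d : (Finset (Fin r) → U) →ₗ[ℂ] (Finset (Fin r) → U))
    (hm : ∀ k, ∀ η ∈ Ck r V k, d η ∈ Ck r V (k + 1))
    (hdd : ∀ k, ∀ η ∈ Ck r V k, d (d η) = 0) (h0 : ∀ η ∈ Ck r V 0, d η = 0 → η = 0)
    (hex : ∀ k, ∀ η ∈ Ck r V (k + 1), d η = 0 → ∃ ξ ∈ Ck r V k, d ξ = η) :
    ∑ k ∈ range (r + 1), (-1) ^ k * (r.choose k : ℚ) * (finrank ℂ (V k) : ℚ) = 0 := by
  have iC := fun k => (fin_Ck r V k).1
  let z : ℕ → ℕ := fun k => finrank ℂ ↥(Ck r V k ⊓ LinearMap.ker d)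
  have e1 : ∀ k, (Ck r V k).map d = Ck r V (k + 1) ⊓ LinearMap.ker d := fun k => by
    refine le_antisymm ?_ ?_
    · rintro _ ⟨η, hη, rfl⟩
      exact ⟨hm k η hη, hdd k η hη⟩
    · rintro η ⟨h1, h2⟩
      exact hex k η h1 h2
  have e2 : ∀ k, r.choose k * finrank ℂ (V k) = z (k + 1) + z k := fun k => by
    rw [← (fin_Ck r V k).2, ← LinearMap.finrank_range_add_finrank_ker (d.domRestrict (Ck r V k)),
      LinearMap.range_domRestrict, e1, LinearMap.ker_domRestrict]
    congr 1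
    rw [← Submodule.finrank_map_subtype_eq, Submodule.map_comap_subtype]
  have z0 : z 0 = 0 := by
    have : Ck r V 0 ⊓ LinearMap.ker d = ⊥ := eq_bot_iff.2 fun η hη => h0 η hη.1 hη.2
    simp [z, this]
  have z1 : z (r + 1) = 0 := by
    have := e2 (r + 1)
    rw [Nat.choose_succ_self, zero_mul] at this
    omega
  have e3 : ∀ m, ∑ k ∈ range m, (-1) ^ k * (r.choose k : ℚ) * (finrank ℂ (V k) : ℚ)
      = -((-1) ^ m * (z m : ℚ)) := fun m => by
    induction m with
    | zero => simp [z0]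
    | succ m ih =>
      have : (r.choose m : ℚ) * (finrank ℂ (V m) : ℚ) = z (m + 1) + z m := by exact_mod_cast e2 m
      rw [sum_range_succ, ih, mul_assoc, this, pow_succ]
      ring
  rw [e3, z1]
  simp

end Pool.Agent.Lib.KOS29.Num
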