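import Pool.Agent.Lib.KOS29.Kos

/-! Twisted families of complexes: finiteness and non-vanishing along `g + m • L`. -/

namespace Pool.Agent.Lib.KOS29

open Module

/-- The twist `t` is generated: chain maps `s a` without common zero. -/
def Gen {G : Type} [AddCommGroup G] (C : G → Cx) (t : G) : Prop :=
  ∃ (r : ℕ) (s : Fin r → ∀ g, Hm (C g) (C (g + t)))
    (h : Fin r → ∀ g q, (C (g + t)).X q →ₗ[ℂ] (C g).X q),
    (∀ a b g q x, (s a (g + t)).s q ((s b g).s q x) = (s b (g + t)).s q ((s a g).s q x)) ∧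
    (∀ a b g q x, h a (g + t) q ((s b (g + t)).s q x) = (s b g).s q (h a g q x)) ∧
    ∀ g q x, ∑ a, h a g q ((s a g).s q x) = x

/-- The sequence `g, g + t, g + t + t, ...`. -/
def it {G : Type} [AddCommGroup G] (g t : G) : ℕ → G
  | 0 => g
  | i + 1 => it g t i + t

theorem it_eq {G : Type} [AddCommGroup G] (g t : G) (i : ℕ) : it g t i = g + i • t := by
  induction i with
  | zero => simp [it]
  | succ i ih => rw [it, ih, succ_nsmul, add_assoc]

theorem E_sum {ι : Type} (F : Fam ι) (i : ℕ) (q : ℤ) (l : List ι) (x : (F.C i).X q) :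
    F.E i q l x = (l.map fun a => F.h a i q ((F.s a i).s q x)).sum := by
  induction l with
  | nil => rfl
  | cons a l ih => rw [List.map_cons, List.sum_cons, ← ih]; rfl

theorem Gen.fam {G : Type} [AddCommGroup G] {C : G → Cx} {t : G} (hG : Gen C t) :
    ∃ r : ℕ, ∀ g, ∃ (F : Fam (Fin r)), (∀ i, F.C i = C (it g t i)) ∧
      ∀ i q, Function.Bijective (F.P (List.finRange r) i q) := by
  obtain ⟨r, s, h, ss, hs, hid⟩ := hG
  refine ⟨r, fun g => ?_⟩
  let F : Fam (Fin r) := ⟨fun i => C (it g t i), fun a i => s a (it g t i),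
    fun a i => h a (it g t i), fun _ _ => 0, fun a b i => ss a b _, fun a b i => hs a b _,
    fun b i q x => (map_zero _).symm⟩
  refine ⟨F, fun _ => rfl, fun i q => ?_⟩
  have e : ∀ x, F.P (List.finRange r) i q x = x := fun x => by
    show (F.C i).d q 0 + 0 + F.E i (q + 1) (List.finRange r) x = x
    rw [map_zero, add_zero, zero_add, E_sum, ← Fin.sum_univ_def]
    exact hid _ _ x
  exact ⟨fun x y hxy => by rwa [e, e] at hxy, fun y => ⟨y, e y⟩⟩

/-- Finite-dimensionality descends along a generated twist. -/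
theorem good_of_gen {G : Type} [AddCommGroup G] {C : G → Cx} {t : G} (hG : Gen C t) (g : G)
    (j0 : ℕ) (hg : ∀ j, j0 ≤ j → Good (C (g + j • t))) : Good (C g) := by
  obtain ⟨r, hr⟩ := hG.fam
  obtain ⟨F, hF, hb⟩ := hr g
  have := good_all _ F hb j0 (fun j hj => by rw [hF, it_eq]; exact hg j hj) 0
  rwa [hF] at this

theorem diff_of_gen {G : Type} [AddCommGroup G] {C : G → Cx} {t : G} (hG : Gen C t)
    (hg : ∀ g, Good (C g)) : ∃ r, (fwdDiff t)^[r] (fun g => chi (C g)) = 0 := by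
  obtain ⟨r, hr⟩ := hG.fam
  refine ⟨r, funext fun g => ?_⟩
  obtain ⟨F, hF, hb⟩ := hr g
  have h1 := chi_diff _ F hb fun j => by rw [hF]; exact hg _
  simp only [hF, List.length_finRange] at h1
  rw [diff_seq t (it g t) (fun _ => rfl) r fun g => chi (C g)] at h1
  exact congrFun h1 0

/-- Non-zero Euler characteristic at `g` gives cohomology at `g + m • (t1 - t2)` for infinitely
many `m`. -/
theorem pol {G : Type} [AddCommGroup G] {C : G → Cx} {t1 t2 : G} (h1 : Gen C t1) (h2 : Gen C t2)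
    (hg : ∀ g, Good (C g)) (g : G) (hc : chi (C g) ≠ 0) :
    {m : ℕ | ∃ q x, (C (g + m • (t1 - t2))).d (q + 1) x = 0 ∧
      ¬ ∃ w, (C (g + m • (t1 - t2))).d q w = x}.Infinite := by
  obtain ⟨r1, e1⟩ := diff_of_gen h1 hg
  obtain ⟨r2, e2⟩ := diff_of_gen h2 hg
  refine (inf_ne (fun g => chi (C g)) t1 t2 g r1 r2 e1 e2 hc).mono fun m hm => ?_
  by_contra hn
  refine hm (good_acyc _ fun q x hx => ?_).2
  by_contra hw
  exact hn ⟨q, x, hx, hw⟩

end Pool.Agent.Lib.KOS29
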